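import Pool.Agent.Y745.EW.Defs

set_option autoImplicit false

/-! # A superlevel set of the weight on which the integral is nonnegative -/

namespace Pool.Agent.Y419.EW

open MeasureTheory Set
open Pool.Agent.Y745.EW

theorem t_LAYER : P_LAYER := by
  intro G V Ψ a b vh K μ0 hG hGab hV hV0 hVh hvh hΨ hK hlt hE
  by_contra hcon
  push Not at hcon
  have hmeas : ∀ v : ℝ, MeasurableSet {t | v < V t} := fun v =>
    measurableSet_lt measurable_const hV.measurable
  have hI : ∀ v, 0 ≤ v → ∫ t in G ∩ {t | v < V t}, Ψ t ≤ K / vh := by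
    intro v hv
    by_cases h0 : 0 ≤ ∫ t in G ∩ {t | v < V t}, Ψ t
    · exact hE _ (hG.inter (hmeas v)) inter_subset_left (hcon v hv h0)
    · exact (not_le.1 h0).le.trans (by positivity)
  obtain ⟨f, hfdef⟩ : ∃ f : ℝ × ℝ → ℝ, f = {p : ℝ × ℝ | p.2 < V p.1}.indicator
    (fun p => Ψ p.1) := ⟨_, rfl⟩
  have hf : Integrable f ((volume.restrict G).prod (volume.restrict (Ioc 0 vh))) := by
    rw [hfdef]
    have h1 : Integrable (fun p : ℝ × ℝ => Ψ p.1)
        ((volume.restrict G).prod (volume.restrict (Ioc 0 vh))) :=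
      Integrable.comp_fst hΨ (volume.restrict (Ioc 0 vh))
    exact h1.indicator (measurableSet_lt measurable_snd (hV.measurable.comp measurable_fst))
  have hfa : ∀ t v, f (t, v) = if v < V t then Ψ t else 0 := by
    intro t v
    rw [hfdef, indicator_apply]
    rfl
  have h1 : ∫ t in G, V t * Ψ t = ∫ t in G, ∫ v in Ioc 0 vh, f (t, v) := by
    apply setIntegral_congr_fun hG
    intro t ht
    show V t * Ψ t = ∫ v in Ioc 0 vh, f (t, v)
    have e1 : (fun v => f (t, v)) = (Iio (V t)).indicator (fun _ => Ψ t) := by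
      funext v
      rw [hfa, indicator_apply]
      rfl
    rw [e1, setIntegral_indicator measurableSet_Iio]
    have e2 : Ioc 0 vh ∩ Iio (V t) = Ioo 0 (V t) := by
      ext x
      simp only [mem_inter_iff, mem_Ioc, mem_Iio, mem_Ioo]
      constructor
      · rintro ⟨⟨h1, _⟩, h3⟩
        exact ⟨h1, h3⟩
      · rintro ⟨h1, h3⟩
        exact ⟨⟨h1, h3.le.trans (hVh t ht)⟩, h3⟩
    rw [e2, setIntegral_const, Real.volume_real_Ioo_of_le (hV0 t), sub_zero, smul_eq_mul]
  have h2 : ∫ t in G, ∫ v in Ioc 0 vh, f (t, v) = ∫ v in Ioc 0 vh, ∫ t in G, f (t, v) :=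
    integral_integral_swap hf
  have h3 : ∀ v, ∫ t in G, f (t, v) = ∫ t in G ∩ {t | v < V t}, Ψ t := by
    intro v
    have e1 : (fun t => f (t, v)) = {t | v < V t}.indicator Ψ := by
      funext t
      rw [hfa, indicator_apply]
      rfl
    rw [e1, setIntegral_indicator (hmeas v)]
  have h4 : ∫ v in Ioc 0 vh, ∫ t in G, f (t, v) ≤ ∫ _v in Ioc 0 vh, K / vh := by
    apply setIntegral_mono_on hf.integral_prod_right (integrableOn_const (by simp))
      measurableSet_Ioc
    intro v hv
    show ∫ t in G, f (t, v) ≤ K / vh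
    rw [h3 v]
    exact hI v hv.1.le
  rw [setIntegral_const, Real.volume_real_Ioc_of_le hvh.le, sub_zero, smul_eq_mul,
    mul_div_cancel₀ _ hvh.ne'] at h4
  rw [h1, h2] at hlt
  linarith

end Pool.Agent.Y419.EW
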